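import Mathlib

/-!
# MP_46fa68_co: from a bound on one diagonal position to a bound further down

If every `t`-intersecting family of permutations of `n` points has at most `N` members, then every
`(t + 1)`-intersecting family of permutations of `n + 1` points has at most `(n + 1) N / (t + 1)`
members: fix one member and count agreements with it.
-/

set_option autoImplicit false

open Finset Equiv

namespace Pool.JM.ND

/-- every `t`-intersecting family of permutations of `n` points has at most `N` members -/
def Bd (n t N : ℕ) : Prop := ∀ A : Finset (Perm (Fin n)),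
  (∀ σ ∈ A, ∀ τ ∈ A, t ≤ (univ.filter (fun i : Fin n => σ i = τ i)).card) → A.card ≤ N

/-- add a fixed point -/
def ext {n : ℕ} (π : Perm (Fin n)) : Perm (Fin (n + 1)) := Equiv.Perm.decomposeFin.symm (0, π)

lemma ext_zero {n : ℕ} (π : Perm (Fin n)) : ext π 0 = 0 := by
  simp [ext]

lemma ext_succ {n : ℕ} (π : Perm (Fin n)) (i : Fin n) : ext π i.succ = (π i).succ := by
  simp [ext]

lemma agr_ext {n : ℕ} (σ τ : Perm (Fin n)) :
    (univ.filter (fun i : Fin (n + 1) => ext σ i = ext τ i)).card =
      (univ.filter (fun i : Fin n => σ i = τ i)).card + 1 := by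
  rw [Fin.card_filter_univ_succ]
  simp only [ext_zero, if_true, ext_succ, Fin.succ_inj]

lemma exists_ext {n : ℕ} (b : Perm (Fin (n + 1))) (hb : b 0 = 0) : ∃ π, ext π = b := by
  refine ⟨(Equiv.Perm.decomposeFin b).2, ?_⟩
  have h1 : (Equiv.Perm.decomposeFin b).1 = 0 := by
    have h2 := Equiv.Perm.decomposeFin_symm_apply_zero (Equiv.Perm.decomposeFin b).1
      (Equiv.Perm.decomposeFin b).2
    rw [Prod.mk.eta, Equiv.symm_apply_apply] at h2
    rw [← h2, hb]
  unfold ext
  rw [← h1, Prod.mk.eta, Equiv.symm_apply_apply]

/-- agreements are invariant under multiplication on both sides -/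
lemma agr_mul {n : ℕ} (g h σ τ : Perm (Fin n)) :
    (univ.filter (fun i : Fin n => (g * σ * h) i = (g * τ * h) i)).card =
      (univ.filter (fun i : Fin n => σ i = τ i)).card := by
  classical
  refine card_bij (fun i _ => h i) ?_ ?_ ?_
  · intro i hi
    rw [mem_filter] at hi ⊢
    refine ⟨mem_univ _, ?_⟩
    have := hi.2
    simp only [Perm.mul_apply] at this
    exact g.injective this
  · intro i _ j _ hij
    exact h.injective hij
  · intro j hj
    rw [mem_filter] at hj
    refine ⟨h.symm j, ?_, by simp⟩
    rw [mem_filter]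
    refine ⟨mem_univ _, ?_⟩
    simp only [Perm.mul_apply, Equiv.apply_symm_apply]
    rw [hj.2]

/-- one step -/
theorem step {n t N : ℕ} (h : Bd n t N) (A : Finset (Perm (Fin (n + 1))))
    (hA : ∀ σ ∈ A, ∀ τ ∈ A, t + 1 ≤ (univ.filter (fun i : Fin (n + 1) => σ i = τ i)).card) :
    (t + 1) * A.card ≤ (n + 1) * N := by
  classical
  rcases A.eq_empty_or_nonempty with rfl | ⟨s, hs⟩
  · simp
  -- the members which agree with `s` in `i`
  have h1 : ∀ i : Fin (n + 1), (A.filter (fun a => a i = s i)).card ≤ N := by
    intro i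
    set G : Finset (Perm (Fin n)) :=
      univ.filter (fun π => swap 0 (s i) * ext π * swap 0 i ∈ A) with hG
    have h2 : A.filter (fun a => a i = s i) ⊆
        G.image (fun π => swap 0 (s i) * ext π * swap 0 i) := by
      intro a ha
      rw [mem_filter] at ha
      have hb : (swap 0 (s i) * a * swap 0 i) 0 = 0 := by
        rw [Perm.mul_apply, swap_apply_left, Perm.mul_apply, ha.2, swap_apply_right]
      obtain ⟨π, hπ⟩ := exists_ext _ hb
      have he : swap 0 (s i) * ext π * swap 0 i = a := by
        rw [hπ, ← mul_assoc, ← mul_assoc, swap_mul_self, one_mul, mul_assoc, swap_mul_self, mul_one]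
      rw [mem_image]
      exact ⟨π, by rw [hG, mem_filter]; exact ⟨mem_univ _, by rw [he]; exact ha.1⟩, he⟩
    refine (card_le_card h2).trans (card_image_le.trans (h G ?_))
    intro σ hσ τ hτ
    rw [hG, mem_filter] at hσ hτ
    have h3 := hA _ hσ.2 _ hτ.2
    rw [agr_mul, agr_ext] at h3
    omega
  have h4 : ∑ a ∈ A, (univ.filter (fun i : Fin (n + 1) => a i = s i)).card =
      ∑ i : Fin (n + 1), (A.filter (fun a => a i = s i)).card := by
    simp only [card_eq_sum_ones, sum_filter]
    exact sum_comm
  calc (t + 1) * A.card = ∑ _a ∈ A, (t + 1) := by rw [sum_const, smul_eq_mul, mul_comm]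
    _ ≤ ∑ a ∈ A, (univ.filter (fun i : Fin (n + 1) => a i = s i)).card :=
        sum_le_sum fun a ha => hA a ha s hs
    _ = ∑ i : Fin (n + 1), (A.filter (fun a => a i = s i)).card := h4
    _ ≤ ∑ _i : Fin (n + 1), N := sum_le_sum fun i _ => h1 i
    _ = (n + 1) * N := by rw [sum_const, smul_eq_mul, card_univ, Fintype.card_fin]

/-- `r` steps -/
theorem steps {n t N : ℕ} (h : Bd n t N) : ∀ (r : ℕ) (A : Finset (Perm (Fin (n + r)))),
    (∀ σ ∈ A, ∀ τ ∈ A, t + r ≤ (univ.filter (fun i : Fin (n + r) => σ i = τ i)).card) →
    (t + r).choose r * A.card ≤ (n + r).choose r * N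
  | 0, A, hA => by simpa using h A hA
  | r + 1, A, hA => by
    have hb : Bd (n + r) (t + r) ((n + r).choose r * N / (t + r).choose r) := by
      intro A hA
      rw [Nat.le_div_iff_mul_le (Nat.choose_pos (Nat.le_add_left _ _)), mul_comm]
      exact steps h r A hA
    have h1 := step hb A hA
    have h2 : (t + r + 1) * A.card * (t + r).choose r ≤ (n + r + 1) * ((n + r).choose r * N) := by
      calc (t + r + 1) * A.card * (t + r).choose r
          ≤ (n + r + 1) * ((n + r).choose r * N / (t + r).choose r) * (t + r).choose r :=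
            Nat.mul_le_mul_right _ h1
        _ = (n + r + 1) * ((n + r).choose r * N / (t + r).choose r * (t + r).choose r) := by ring
        _ ≤ (n + r + 1) * ((n + r).choose r * N) :=
            Nat.mul_le_mul_left _ (Nat.div_mul_le_self _ _)
    have e1 := Nat.add_one_mul_choose_eq (t + r) r
    have e2 := Nat.add_one_mul_choose_eq (n + r) r
    have h3 : (t + r + 1).choose (r + 1) * (r + 1) * A.card ≤
        (n + r + 1).choose (r + 1) * (r + 1) * N := by
      rw [← e1, ← e2]
      calc (t + r + 1) * (t + r).choose r * A.card = (t + r + 1) * A.card * (t + r).choose r := by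
            ring
        _ ≤ _ := h2
        _ = (n + r + 1) * (n + r).choose r * N := by ring
    have h4 : (r + 1) * ((t + (r + 1)).choose (r + 1) * A.card) ≤
        (r + 1) * ((n + (r + 1)).choose (r + 1) * N) := by
      calc (r + 1) * ((t + (r + 1)).choose (r + 1) * A.card) =
            (t + r + 1).choose (r + 1) * (r + 1) * A.card := by rw [← add_assoc]; ring
        _ ≤ _ := h3
        _ = _ := by rw [← add_assoc]; ring
    exact Nat.le_of_mul_le_mul_left h4 (Nat.succ_pos r)

end Pool.JM.ND
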