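import Pool.Agent.Work.MP_46fa68_T.Wrap

/-!
# MP_46fa68_co: a certificate for `(m, T)` gives the statement for all `(m, t)` with `t ≤ T`

If `u` is positive on the level `m + T` below the wall and its `T`-th restriction is `1` on the level
`m`, then for `t ≤ T` the function `Dwi (T - t) u` has the same properties for `(m, t)`.
`iff_of_threshold`: one certificate with `T = m - 3` settles all `n = m + t` with `n ≥ 2 t + 3`.
-/

set_option autoImplicit false

open Finset Equiv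

namespace Pool.JM

/-- there is always a move below the wall -/
theorem exists_move {m K n : ℕ} (hm : 2 ≤ m) (hn : n < K) {B : Finset ℕ} (hB : B ∈ Lv K n) :
    ∃ x ∈ ad B, x < K + m - 2 := by
  classical
  have hex : ∃ g, g ∉ B := Infinite.exists_notMem_finset B
  have h0 : 0 ∈ B := Lv_zero_mem hB hn
  obtain ⟨g, hg, hmin⟩ : ∃ g, g ∉ B ∧ ∀ y < g, y ∈ B :=
    ⟨Nat.find hex, Nat.find_spec hex, fun y hy => not_not.1 (Nat.find_min hex hy)⟩
  have hg0 : g ≠ 0 := fun h => hg (h ▸ h0)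
  have hgK : g ≤ K := by
    by_contra h
    have h1 : range (K + 1) ⊆ B := fun y hy => hmin y (by
      have := mem_range.1 hy
      omega)
    have h2 := card_le_card h1
    rw [card_range, (Lv_spec hB).1] at h2
    omega
  refine ⟨g - 1, mem_ad.2 ⟨hmin _ (by omega), ?_⟩, by omega⟩
  rwa [Nat.sub_add_cancel (by omega)]

theorem Dw_pos {m K n : ℕ} (hm : 2 ≤ m) (hn : n < K) {u : Finset ℕ → ℝ}
    (hP : ∀ B ∈ Lv K (n + 1), Bl m K B → 0 < u B) :
    ∀ B ∈ Lv K n, Bl m K B → 0 < Dw (K + m - 2) u B := by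
  intro B hB hb
  unfold Dw
  refine sum_pos ?_ ?_
  · intro x hx
    rw [mem_filter] at hx
    exact mul_pos (w_pos (mem_ad.1 hx.1).2) (hP _ (mv_mem hB hx.1)
      ((Bl_mv (by omega) hm hb).2 hx.2))
  · obtain ⟨x, hx, hxw⟩ := exists_move hm hn hB
    exact ⟨x, mem_filter.2 ⟨hx, hxw⟩⟩

theorem Dwi_pos {m K : ℕ} (hm : 2 ≤ m) : ∀ (j n : ℕ) (u : Finset ℕ → ℝ), n + j ≤ K →
    (∀ B ∈ Lv K (n + j), Bl m K B → 0 < u B) →
    ∀ B ∈ Lv K n, Bl m K B → 0 < Dwi (K + m - 2) j u B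
  | 0, _, _, _, hP, B, hB, hb => hP B hB hb
  | j + 1, n, u, hK, hP, B, hB, hb => by
    have h1 : ∀ B ∈ Lv K (n + 1), Bl m K B → 0 < Dwi (K + m - 2) j u B :=
      Dwi_pos hm j (n + 1) u (by omega) (by rwa [show n + 1 + j = n + (j + 1) by omega])
    exact Dw_pos hm (by omega) h1 B hB hb

theorem Dwi_comp (wl : ℕ) : ∀ (i j : ℕ) (u : Finset ℕ → ℝ),
    Dwi wl i (Dwi wl j u) = Dwi wl (i + j) u
  | 0, j, u => by rw [zero_add]; rfl
  | i + 1, j, u => by
    rw [show i + 1 + j = i + j + 1 by omega]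
    have e1 : Dwi wl (i + 1) (Dwi wl j u) = Dw wl (Dwi wl i (Dwi wl j u)) := rfl
    have e2 : Dwi wl (i + j + 1) u = Dw wl (Dwi wl (i + j) u) := rfl
    rw [e1, e2, Dwi_comp wl i j u]

/-- **A certificate for `(m, T)` gives one for `(m, t)`, `t ≤ T`.** -/
theorem reduce {m T t K : ℕ} (hm : 2 ≤ m) (hK : m + T ≤ K) (ht : t ≤ T) (u : Finset ℕ → ℝ)
    (h0 : ∀ B ∈ Lv K m, Bl m K B → Dwi (K + m - 2) T u B = 1)
    (hP : ∀ B ∈ Lv K (m + T), Bl m K B → 0 < u B) :
    (∀ B ∈ Lv K m, Bl m K B → Dwi (K + m - 2) t (Dwi (K + m - 2) (T - t) u) B = 1) ∧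
    (∀ B ∈ Lv K (m + t), Bl m K B → 0 < Dwi (K + m - 2) (T - t) u B) := by
  refine ⟨fun B hB hb => ?_, ?_⟩
  · rw [Dwi_comp, show t + (T - t) = T by omega]
    exact h0 B hB hb
  · refine Dwi_pos hm (T - t) (m + t) u (by omega) ?_
    rwa [show m + t + (T - t) = m + T by omega]

/-- **One certificate at the threshold `T = m - 3` settles all `t ≤ m - 3`**, that is, all
`n = m + t ≥ 2 t + 3`. -/
theorem iff_of_threshold {m K : ℕ} (hm : 3 ≤ m) (hK : m + (m - 3) < K) (u : Finset ℕ → ℝ)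
    (h0 : ∀ B ∈ Lv K m, Bl m K B → Dwi (K + m - 2) (m - 3) u B = 1)
    (hP : ∀ B ∈ Lv K (m + (m - 3)), Bl m K B → 0 < u B) {t : ℕ} (ht : t + 3 ≤ m)
    (F : Finset (Perm (Fin (m + t)))) :
    ((∀ σ ∈ F, ∀ τ ∈ F, t ≤ (univ.filter (fun i : Fin (m + t) => σ i = τ i)).card) ∧
      (∀ G : Finset (Perm (Fin (m + t))),
        (∀ σ ∈ G, ∀ τ ∈ G, t ≤ (univ.filter (fun i : Fin (m + t) => σ i = τ i)).card) →
          G.card ≤ F.card)) ↔
    ∃ a b : Fin t → Fin (m + t), Function.Injective a ∧ Function.Injective b ∧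
      F = univ.filter (fun σ : Perm (Fin (m + t)) => ∀ k : Fin t, σ (a k) = b k) := by
  obtain ⟨h1, h2⟩ := reduce (t := t) (by omega) (by omega) (by omega) u h0 hP
  exact iff_of_top hm (by omega) _ h1 h2 F

/-- A certificate at the threshold: a positive function on the level `2 m - 3` below the wall whose
`(m - 3)`-th restriction is `1` on the level `m`. -/
def Threshold (m : ℕ) : Prop :=
  ∃ (K : ℕ) (u : Finset ℕ → ℝ), m + (m - 3) < K ∧
    (∀ B ∈ Lv K m, Bl m K B → Dwi (K + m - 2) (m - 3) u B = 1) ∧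
    ∀ B ∈ Lv K (m + (m - 3)), Bl m K B → 0 < u B

/-- **All `n ≥ 2 t + 3`** from the certificates at the threshold for all `m ≥ 4`. -/
theorem final_of_threshold (h : ∀ m, 4 ≤ m → Threshold m) (n t : ℕ) (hn : 2 * t + 3 ≤ n)
    (F : Finset (Perm (Fin n))) :
    ((∀ σ ∈ F, ∀ τ ∈ F, t ≤ (univ.filter (fun i : Fin n => σ i = τ i)).card) ∧
      (∀ G : Finset (Perm (Fin n)),
        (∀ σ ∈ G, ∀ τ ∈ G, t ≤ (univ.filter (fun i : Fin n => σ i = τ i)).card) →
          G.card ≤ F.card)) ↔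
    ∃ a b : Fin t → Fin n, Function.Injective a ∧ Function.Injective b ∧
      F = univ.filter (fun σ : Perm (Fin n) => ∀ k : Fin t, σ (a k) = b k) := by
  obtain ⟨m, rfl⟩ : ∃ m, n = m + t := ⟨n - t, by omega⟩
  rcases Nat.lt_or_ge m 4 with hm | hm
  · -- `m = 3`, `t = 0`
    obtain rfl : t = 0 := by omega
    obtain rfl : m = 3 := by omega
    refine iff_of_top (m := 3) (t := 0) (K := 4) le_rfl (by omega) (fun _ => 1)
      (fun _ _ _ => rfl) (fun _ _ _ => one_pos) F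
  · obtain ⟨K, u, hK, h0, hP⟩ := h m hm
    exact iff_of_threshold (by omega) hK u h0 hP (by omega) F

/-- The version with a lower bound for `n - t`. -/
theorem final_of_threshold_ge (m₀ : ℕ) (h3 : 3 ≤ m₀) (h : ∀ m, m₀ ≤ m → Threshold m) (n t : ℕ)
    (hn : 2 * t + 3 ≤ n) (hm : t + m₀ ≤ n) (F : Finset (Perm (Fin n))) :
    ((∀ σ ∈ F, ∀ τ ∈ F, t ≤ (univ.filter (fun i : Fin n => σ i = τ i)).card) ∧
      (∀ G : Finset (Perm (Fin n)),
        (∀ σ ∈ G, ∀ τ ∈ G, t ≤ (univ.filter (fun i : Fin n => σ i = τ i)).card) →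
          G.card ≤ F.card)) ↔
    ∃ a b : Fin t → Fin n, Function.Injective a ∧ Function.Injective b ∧
      F = univ.filter (fun σ : Perm (Fin n) => ∀ k : Fin t, σ (a k) = b k) := by
  obtain ⟨m, rfl⟩ : ∃ m, n = m + t := ⟨n - t, by omega⟩
  obtain ⟨K, u, hK, h0, hP⟩ := h m (by omega)
  exact iff_of_threshold (by omega) hK u h0 hP (by omega) F

end Pool.JM
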