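import Pool.Agent.Work.MP_46fa68_27.LargeU

/-!
# MP_46fa68_co: the cross bound from the uniform cross function (helper85)
-/

set_option autoImplicit false

open Finset Equiv

namespace Pool.EGL

open Pool.JM Pool.JM.Rare Pool.OS Pool.OB Pool.TW Pool.TW.H27 Pool.EG Pool.NV

/-- the cross function with any constant -/
def CrossC (c1 : ℝ) (t : ℕ) : Prop :=
  ∀ (k L b s : ℕ) (B : Finset ℕ), Two k L b s B → L + b + s = 2 * t →
    |HI (k + 2) t (t + 1) 2 (vC cfV t 100) (tauC cfV t 100) B| ≤ c1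

/-- **the cross bound on `2 t` points from the cross function of `t`** -/
theorem cb_of_cross {t : ℕ} (ht : 3 ≤ t) {c1 : ℝ} (H : CrossC c1 t) {q : ℝ} (hq : 0 < q)
    (hq1 : q < 1) :
    CB (2 * t) (t + 1)
      ((c1 / q) ^ 2 / ((t : ℝ) * (t + 1)) ^ 2 * ((t + 1).factorial : ℝ) ^ 2) := by
  have key : ∀ K, 2 ≤ K → ∀ B ∈ Lv K (2 * t), ∃ (k L b s : ℕ), K = k + 2 ∧ Two k L b s B ∧
      L + b + s = 2 * t := by
    intro K hK B hB
    obtain ⟨k, rfl⟩ : ∃ k, K = k + 2 := ⟨K - 2, by omega⟩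
    obtain ⟨L, b, s, h1, h2⟩ := exists_two hB
    exact ⟨k, L, b, s, rfl, h2, h1.symm⟩
  obtain ⟨u, rfl⟩ : ∃ u, t = u + 1 := ⟨t - 1, by omega⟩
  have eN : 2 * (u + 1) = 2 * u + 1 + 1 := by ring
  have eV : ∀ (K : ℕ) (B : Finset ℕ),
      HI K u (u + 1 + 1) 3 (fun q p => -shl (vC cfV (u + 1) 100) q p) (-tauC cfV (u + 1) 100) B =
        -HI K (u + 1) (u + 1 + 1) 2 (vC cfV (u + 1) 100) (tauC cfV (u + 1) 100) B := fun K B => by
    rw [HI_neg, HI_shl]
  have hsv : sv u 2 (fun p => -shl (vC cfV (u + 1) 100) 1 p) = -1 := by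
    rw [sv_neg]
    have h := V_sv (t := u + 1) (by omega)
    rw [Nat.add_sub_cancel] at h
    change -sv u 2 (vC cfV (u + 1) 100 0) = -1
    rw [h]
  have h := CB_of_source (n := 2 * u + 1) (m := u) (u := u + 1 + 1) (p1 := 2) (Q := 3)
    (by ring) (by omega) (by omega) (by norm_num) (fun q p => -shl (vC cfV (u + 1) 100) q p)
    (-tauC cfV (u + 1) 100) c1 0 q
    (fun q p h => by
      cases q with
      | zero => change -(0 : ℝ) = 0; norm_num
      | succ q =>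
        change -vC cfV (u + 1) 100 q p = 0
        rw [vC_two h, neg_zero])
    (sum_eq_zero fun p _ => by
      change -(0 : ℝ) * _ = 0
      rw [neg_zero, zero_mul])
    hq (by rw [hsv]; linarith)
    (K₁ := 2 * u + 3) (fun K hK => by
      refine ⟨fun B => 0 + HI K u (u + 1 + 1) 3 (fun q p => -shl (vC cfV (u + 1) 100) q p)
        (-tauC cfV (u + 1) 100) B, ?_, ?_⟩
      · intro B hB
        rw [← eN] at hB
        obtain ⟨k, L, b, s, rfl, h2, h3⟩ := key K (by omega) B hB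
        change |0 + _| ≤ _
        rw [zero_add, eV, abs_neg]
        exact H k L b s B h2 h3
      · refine (loss_le_of_sup (by omega) (δ := 0) fun B _ => ?_).trans (by norm_num)
        rw [sub_self, abs_zero])
  have e1 : (((u + 1 + 1).factorial : ℕ) : ℝ) =
      (((u + 1 : ℕ) : ℝ) * (((u + 1 : ℕ) : ℝ) + 1)) * (u.factorial : ℝ) := by
    rw [Nat.factorial_succ, Nat.factorial_succ]
    push_cast
    ring
  have e2 : (c1 / q) ^ 2 / (((u + 1 : ℕ) : ℝ) * (((u + 1 : ℕ) : ℝ) + 1)) ^ 2 *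
      (((u + 1 + 1).factorial : ℕ) : ℝ) ^ 2 = (c1 / q * u.factorial) ^ 2 := by
    rw [e1]
    field_simp
  rw [eN, e2]
  exact h

theorem cb_of_crossU {t : ℕ} (ht : 3 ≤ t) (H : CrossU t) {q : ℝ} (hq : 0 < q) (hq1 : q < 1) :
    CB (2 * t) (t + 1)
      ((7 / 2 / q) ^ 2 / ((t : ℝ) * (t + 1)) ^ 2 * ((t + 1).factorial : ℝ) ^ 2) :=
  cb_of_cross ht (c1 := 7 / 2) H hq hq1

end Pool.EGL
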