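import Pool.Agent.Work.MP_46fa68_76.Std
import Pool.Agent.Work.MP_46fa68_76.EndStmt

set_option autoImplicit false

namespace Pool.EG.Diag

open Finset Pool.EG

/-- add a fixed point -/
def ext {n : ℕ} (π : Equiv.Perm (Fin n)) : Equiv.Perm (Fin (n + 1)) :=
  Equiv.Perm.decomposeFin.symm (0, π)

lemma ext_zero {n : ℕ} (π : Equiv.Perm (Fin n)) : ext π 0 = 0 := by
  simp [ext]

lemma ext_succ {n : ℕ} (π : Equiv.Perm (Fin n)) (i : Fin n) : ext π i.succ = (π i).succ := by
  simp [ext]

lemma ext_injective {n : ℕ} : Function.Injective (ext (n := n)) := by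
  intro π τ h
  ext i
  have h1 : ext π i.succ = ext τ i.succ := by rw [h]
  rw [ext_succ, ext_succ] at h1
  exact congrArg Fin.val (Fin.succ_injective _ h1)

lemma agr_ext {n : ℕ} (σ τ : Equiv.Perm (Fin n)) :
    (univ.filter (fun i : Fin (n + 1) => ext σ i = ext τ i)).card =
      (univ.filter (fun i : Fin n => σ i = τ i)).card + 1 := by
  rw [Fin.card_filter_univ_succ]
  simp only [ext_zero, if_true, ext_succ, Fin.succ_inj]

/-- the step along a diagonal -/
theorem step {n t : ℕ} (htn : t + 2 ≤ n) (h : Holds (n + 1) (t + 1)) : Holds n t := by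
  classical
  intro A hA
  set A' : Finset (Equiv.Perm (Fin (n + 1))) := A.image ext with hA'
  have hcard : A'.card = A.card := card_image_of_injective _ ext_injective
  obtain ⟨h1, h2⟩ := h A' (by
    intro σ hσ τ hτ
    rw [hA', mem_image] at hσ hτ
    obtain ⟨σ, hσ, rfl⟩ := hσ
    obtain ⟨τ, hτ, rfl⟩ := hτ
    rw [agr_ext]
    have := hA σ hσ τ hτ
    omega)
  rw [hcard, show n + 1 - (t + 1) = n - t by omega] at h1 h2
  refine ⟨h1, fun heq => ?_⟩
  obtain ⟨a, b, ha, hb, hab⟩ := h2 heq
  have hmemA' : ∀ ρ, ρ ∈ A' ↔ ∀ k, ρ (a k) = b k := fun ρ => by rw [hab]; simp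
  have hfix : ∀ ρ ∈ A', ρ 0 = 0 := by
    intro ρ hρ
    rw [hA', mem_image] at hρ
    obtain ⟨π, -, rfl⟩ := hρ
    exact ext_zero π
  have hne : A.Nonempty := by
    rw [← card_pos, heq]; exact Nat.factorial_pos _
  obtain ⟨π0, hπ0⟩ := hne
  have hρ0 : ext π0 ∈ A' := mem_image_of_mem _ hπ0
  -- 0 is one of the prescribed points
  have h0 : ∃ k0, a k0 = 0 := by
    by_contra hcon
    push Not at hcon
    -- a second free point
    have hfree : ∃ x : Fin (n + 1), x ≠ 0 ∧ ∀ k, a k ≠ x := by
      by_contra hcon2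
      push Not at hcon2
      have hsub : (univ.erase (0 : Fin (n + 1))) ⊆ univ.image a := by
        intro x hx
        rw [mem_erase] at hx
        obtain ⟨k, hk⟩ := hcon2 x hx.1
        exact mem_image.mpr ⟨k, mem_univ _, hk⟩
      have h3 := card_le_card hsub
      rw [card_erase_of_mem (mem_univ _), card_univ, Fintype.card_fin] at h3
      have h4 : (univ.image a).card ≤ t + 1 := by
        refine card_image_le.trans ?_
        rw [card_univ, Fintype.card_fin]
      omega
    obtain ⟨x, hx0, hxa⟩ := hfree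
    have h5 : ext π0 * Equiv.swap 0 x ∈ A' := by
      rw [hmemA']
      intro k
      rw [Equiv.Perm.mul_apply, Equiv.swap_apply_of_ne_of_ne (hcon k) (hxa k)]
      exact (hmemA' _).mp hρ0 k
    have h6 := hfix _ h5
    rw [Equiv.Perm.mul_apply, Equiv.swap_apply_left] at h6
    have h7 : ext π0 x = ext π0 0 := by rw [h6, ext_zero]
    exact hx0 ((ext π0).injective h7)
  obtain ⟨k0, hk0⟩ := h0
  have hbk0 : b k0 = 0 := by
    rw [← (hmemA' _).mp hρ0 k0, hk0, ext_zero]
  have ha' : ∀ k : Fin t, a (k0.succAbove k) ≠ 0 := fun k hk =>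
    Fin.succAbove_ne k0 k (ha (hk.trans hk0.symm))
  have hb' : ∀ k : Fin t, b (k0.succAbove k) ≠ 0 := fun k hk =>
    Fin.succAbove_ne k0 k (hb (hk.trans hbk0.symm))
  refine ⟨fun k => (a (k0.succAbove k)).pred (ha' k), fun k => (b (k0.succAbove k)).pred (hb' k),
    ?_, ?_, ?_⟩
  · intro k k' hkk
    simp only [Fin.pred_inj] at hkk
    exact Fin.succAbove_right_injective (ha hkk)
  · intro k k' hkk
    simp only [Fin.pred_inj] at hkk
    exact Fin.succAbove_right_injective (hb hkk)
  · ext π
    rw [mem_filter]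
    have h8 : π ∈ A ↔ ext π ∈ A' := by
      rw [hA', mem_image]
      constructor
      · exact fun h => ⟨π, h, rfl⟩
      · rintro ⟨τ, hτ, hτπ⟩
        rwa [← ext_injective hτπ]
    rw [h8, hmemA']
    constructor
    · intro h
      refine ⟨mem_univ _, fun k => ?_⟩
      apply Fin.succ_injective
      rw [← ext_succ, Fin.succ_pred, Fin.succ_pred]
      exact h _
    · rintro ⟨-, h⟩ k
      rcases eq_or_ne k k0 with rfl | hk
      · rw [hk0, hbk0, ext_zero]
      · obtain ⟨l, rfl⟩ := Fin.exists_succAbove_eq hk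
        have h9 := congrArg Fin.succ (h l)
        rw [← ext_succ, Fin.succ_pred, Fin.succ_pred] at h9
        exact h9

/-- **Theorem.** On each diagonal `n - t = m` Q1 for all pairs with `n > 2t` is equivalent to Q1 for the
last one, `(n, t) = (2m-1, m-1)`. -/
theorem result (m : ℕ) (hm : 2 ≤ m) :
    (∀ n t : ℕ, n = t + m → 2 * t < n → Holds n t) ↔ Holds (2 * m - 1) (m - 1) := by
  have hmany : ∀ k n t : ℕ, t + 2 ≤ n → Holds (n + k) (t + k) → Holds n t := by
    intro k
    induction k with
    | zero => intro n t _ h; exact h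
    | succ k ih =>
      intro n t hn h
      exact ih n t hn (step (by omega) h)
  constructor
  · intro h
    exact h _ _ (by omega) (by omega)
  · intro h n t hn htn
    apply hmany (m - 1 - t) n t (by omega)
    rw [show n + (m - 1 - t) = 2 * m - 1 by omega, show t + (m - 1 - t) = m - 1 by omega]
    exact h

end Pool.EG.Diag
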