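import Pool.Agent.Work.MP_46fa68_85.PairEnd
import Pool.Agent.Work.MP_46fa68_85t.E42_21
import Pool.Agent.Work.MP_46fa68_18.CV

/-!
# MP_46fa68_co: `Holds 43 21` (`m = 22`) (helper85)
-/

set_option autoImplicit false

namespace Pool.EG

theorem holds_43 (hK : ∀ n' t' : ℕ, 2 * t' + 3 ≤ n' → Holds n' t') : Holds 43 21 := by
  have h := Pool.JM.Tab85.tcs42_21
  norm_num at h
  exact holds_43_of h Pool.NW.CV.cross21 hK

end Pool.EG
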