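import Pool.Agent.Work.MP_46fa68_85.HoldIff
import Pool.Agent.Work.MP_46fa68_20.Big
import Pool.Agent.Work.MP_46fa68_h48.Small

/-!
# MP_46fa68_co: bound and uniqueness for all `n ≥ 2 t + 3`
-/

set_option autoImplicit false

namespace Pool.EG

/-- bound and uniqueness for all `n ≥ 2 t + 3` -/
theorem hold3 (n t : ℕ) (hn : 2 * t + 3 ≤ n) : Holds n t := by
  refine holds_of_iff (fun F => ?_)
  refine Pool.JM.final_of_threshold (fun m h4 => ?_) n t hn F
  rcases Nat.lt_or_ge m 21 with h | h
  · exact Pool.JM.threshold_small m h4 (by omega)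
  · exact Pool.JM.threshold_ge h

end Pool.EG
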