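import Pool.Agent.Work.MP_46fa68_82.AnGapP
import Pool.Agent.Work.MP_46fa68_48c.TwoTab

/-!
# MP_46fa68_co: the gap of a pair table (helper85, after helper82's AnGapP)

The table gives the two-class certificates of all scalings `l` (`TCs`); one table covers several intervals of
densities, one scaling for each.
-/

set_option autoImplicit false

open Finset Equiv

namespace Pool.TW.H85

open Pool.JM Pool.JM.Rare Pool.OS Pool.OB Pool.TW Pool.TW.H27 Pool.TW.H82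

variable {n k t : ℕ}

/-- **The inequality of the two-class certificates of a table for the families of size exactly `(n - t)!`.** -/
theorem psi_nonneg_TCs {p0 s11 q0 s12 r0 s22 C l : ℝ} (hN : n + 1 = k + t) (hk : k + 1 ≤ n)
    (hk1 : 1 ≤ k) (hq0 : 0 ≤ q0) (hr0 : 0 ≤ r0) (hs : 0 ≤ s12) (h22 : s22 ≤ 0)
    (H : TCs n k t p0 s11 q0 s12 r0 s22)
    (hC : CB (n + 1) (t + 1) (C * ((k + 1).factorial : ℝ) ^ 2)) (hl : 0 < l)
    (A : Finset (Perm (Fin (n + 1 + 1)))) (hA : EG.TInt t A)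
    (hc : A.card = (n + 1 + 1 - t).factorial) (x y : Fin (n + 1 + 1)) (z : ℝ)
    (hz : ((EG.thr A x y).card : ℝ) = z * ((n + 1 + 1 - t).factorial : ℝ)) :
    0 ≤ psi k p0 s11 q0 s12 r0 s22 (t * C) l z := by
  obtain ⟨A', hA1, hA2, hA3⟩ := exists_move A x y
  have hA4 : ∀ σ ∈ A', ∀ τ ∈ A', t ≤ ag σ τ := hA3 t hA
  rw [show n + 1 + 1 - t = k + 1 by omega] at hc hz
  have e0 : ((EG.thr A x y).card : ℝ) = ((Qs A').card : ℝ) := by
    rw [hA2]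
    rfl
  rw [e0] at hz
  rw [← hA1] at hc
  have hk0 : (0 : ℝ) < k := by exact_mod_cast (show 0 < k by omega)
  have hi : 0 < l⁻¹ := inv_pos.2 hl
  have u1 := card_off hN A'
  have u2 := off_le (k := k) A'
  have u3 := hC (Qs A') (Bp k (Ws A')) fun σ hσ τ hτ =>
    (fib A' hA4).cross_big hN hσ (mem_filter.1 hτ).2
  have hT := H l hl A' hA4
  rw [div_eq_inv_mul r0 l, div_eq_inv_mul s22 l] at hT
  have u1' : (A'.card : ℝ) ≤
      ((Qs A').card : ℝ) + ((TW.off k A' : ℝ) + t * ((Bp k (Ws A')).card : ℝ)) := by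
    exact_mod_cast u1
  have u2' : ((Qs A').card : ℝ) + (TW.off k A' : ℝ) ≤ (A'.card : ℝ) := by exact_mod_cast u2
  have hc' : (A'.card : ℝ) = ((k + 1).factorial : ℝ) := by exact_mod_cast hc
  have hB0 : (0 : ℝ) ≤ ((Bp k (Ws A')).card : ℝ) := Nat.cast_nonneg _
  have hY0 : (0 : ℝ) ≤ (TW.off k A' : ℝ) := Nat.cast_nonneg _
  have hX0 : (0 : ℝ) ≤ ((Qs A').card : ℝ) := Nat.cast_nonneg _
  obtain ⟨X, hX⟩ : ∃ X : ℝ, X = ((Qs A').card : ℝ) := ⟨_, rfl⟩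
  obtain ⟨Y, hY⟩ : ∃ Y : ℝ, Y = (TW.off k A' : ℝ) := ⟨_, rfl⟩
  obtain ⟨D, hD⟩ : ∃ D : ℝ, D = ((Bp k (Ws A')).card : ℝ) := ⟨_, rfl⟩
  obtain ⟨F, hF⟩ : ∃ F : ℝ, F = ((k + 1).factorial : ℝ) := ⟨_, rfl⟩
  have hF0 : 0 < F := by rw [hF]; exact_mod_cast (k + 1).factorial_pos
  rw [← hX, ← hY, ← hF] at hT
  rw [← hX, ← hY, ← hD] at u1'
  rw [← hX, ← hY] at u2'
  rw [← hX, ← hD, ← hF] at u3
  rw [← hX, ← hF] at hz
  rw [← hF] at hc'
  rw [hc'] at u1' u2'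
  rw [← hY] at hY0
  rw [← hX] at hX0
  rw [← hD] at hB0
  clear hX hY hD
  -- normalise
  obtain ⟨w, hw⟩ : ∃ w : ℝ, w = Y / F := ⟨_, rfl⟩
  have hYw : Y = w * F := by rw [hw, div_mul_cancel₀ _ hF0.ne']
  obtain ⟨e, he⟩ : ∃ e : ℝ, e = D / F := ⟨_, rfl⟩
  have hDe : D = e * F := by rw [he, div_mul_cancel₀ _ hF0.ne']
  have hz0 : 0 ≤ z := by
    rw [hz] at hX0
    exact nonneg_of_mul_nonneg_left hX0 hF0
  have hw0 : 0 ≤ w := by
    rw [hYw] at hY0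
    exact nonneg_of_mul_nonneg_left hY0 hF0
  have w1 : z + w ≤ 1 := by
    rw [hz, hYw] at u2'
    have : (z + w) * F ≤ 1 * F := by linarith
    exact le_of_mul_le_mul_right this hF0
  have w2 : 1 ≤ z + w + t * e := by
    rw [hz, hYw, hDe] at u1'
    have : 1 * F ≤ (z + w + t * e) * F := by linarith
    exact le_of_mul_le_mul_right this hF0
  have w3 : z * e ≤ C := by
    rw [hz, hDe] at u3
    have : z * e * F ^ 2 ≤ C * F ^ 2 := by
      calc z * e * F ^ 2 = z * F * (e * F) := by ring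
        _ ≤ _ := u3
    exact le_of_mul_le_mul_right this (by positivity)
  have w4 : z * (1 - z) - t * C ≤ z * w := by
    have h1 := mul_le_mul_of_nonneg_left w2 hz0
    have h2 : (t : ℝ) * (z * e) ≤ t * C := mul_le_mul_of_nonneg_left w3 (Nat.cast_nonneg t)
    nlinarith
  have hT2 : 0 ≤ (l * p0) * z + (l⁻¹ * r0 + 2 * q0) / k * w -
      ((l * s11) * z ^ 2 + 2 * (s12 * (k + 1) / k) * (z * w) + l⁻¹ * s22 / k ^ 2 * w ^ 2) := by
    rw [hz, hYw] at hT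
    have e1 : (l * p0 * (z * F) + (l⁻¹ * r0 + 2 * q0) / k * (w * F)) -
        (l * s11 * (z * F) ^ 2 + 2 * (s12 * (k + 1) / k) * (z * F) * (w * F) +
          l⁻¹ * s22 / k ^ 2 * (w * F) ^ 2) / F =
        F * ((l * p0) * z + (l⁻¹ * r0 + 2 * q0) / k * w -
      ((l * s11) * z ^ 2 + 2 * (s12 * (k + 1) / k) * (z * w) + l⁻¹ * s22 / k ^ 2 * w ^ 2)) := by
      field_simp
    rw [e1] at hT
    exact nonneg_of_mul_nonneg_right hT hF0
  have i1 : (l⁻¹ * r0 + 2 * q0) / k * w ≤ (l⁻¹ * r0 + 2 * q0) / k * (1 - z) := by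
    refine mul_le_mul_of_nonneg_left (by linarith) ?_
    have : 0 ≤ l⁻¹ * r0 := mul_nonneg hi.le hr0
    positivity
  have i2 : (s12 * (k + 1) / k) * (z * (1 - z) - t * C) ≤ (s12 * (k + 1) / k) * (z * w) :=
    mul_le_mul_of_nonneg_left w4 (by positivity)
  have i3 : l⁻¹ * s22 / k ^ 2 * (1 - z) ^ 2 ≤ l⁻¹ * s22 / k ^ 2 * w ^ 2 := by
    have h1 : l⁻¹ * s22 / k ^ 2 ≤ 0 :=
      div_nonpos_of_nonpos_of_nonneg (mul_nonpos_of_nonneg_of_nonpos hi.le h22) (by positivity)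
    have h2 : w ^ 2 ≤ (1 - z) ^ 2 := pow_le_pow_left₀ hw0 (by linarith) 2
    exact mul_le_mul_of_nonpos_left h2 h1
  unfold psi
  linarith

/-- **The gap of the two-class certificates of a table**, two end inequalities. -/
theorem gap_of_TCs {p0 s11 q0 s12 r0 s22 C l β p : ℝ} (hN : n + 1 = k + t) (hk : k + 1 ≤ n)
    (hk1 : 1 ≤ k) (hq0 : 0 ≤ q0) (hr0 : 0 ≤ r0) (hs : 0 ≤ s12) (h22 : s22 ≤ 0)
    (H : TCs n k t p0 s11 q0 s12 r0 s22)
    (hC : CB (n + 1) (t + 1) (C * ((k + 1).factorial : ℝ) ^ 2)) (hl : 0 < l)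
    (hβ0 : 0 ≤ β) (hp1 : p ≤ 1) (hg : 1 < (p - β) * ((n + 1 + 1 - t).factorial : ℝ))
    (hconv : 0 < -(l * s11) + 2 * (s12 * (k + 1) / k) - l⁻¹ * s22 / k ^ 2)
    (h1 : psi k p0 s11 q0 s12 r0 s22 (t * C) l β ≤ 0)
    (h2 : psi k p0 s11 q0 s12 r0 s22 (t * C) l p ≤ 0) : EG.Gap (n + 1 + 1) t 1 β p := by
  refine gap_of_one hβ0 hp1 hg fun A hA hc x y a1 a2 => ?_
  have hF0 : (0 : ℝ) < ((n + 1 + 1 - t).factorial : ℝ) := by exact_mod_cast Nat.factorial_pos _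
  obtain ⟨z, hz⟩ : ∃ z : ℝ, z = ((EG.thr A x y).card : ℝ) / ((n + 1 + 1 - t).factorial : ℝ) :=
    ⟨_, rfl⟩
  have hz' : ((EG.thr A x y).card : ℝ) = z * ((n + 1 + 1 - t).factorial : ℝ) := by
    rw [hz, div_mul_cancel₀ _ hF0.ne']
  have b0 := psi_nonneg_TCs hN hk hk1 hq0 hr0 hs h22 H hC hl A hA hc x y z hz'
  rw [hz'] at a1 a2
  have b1 : β < z := lt_of_mul_lt_mul_right a1 hF0.le
  have b2 : z < p := lt_of_mul_lt_mul_right a2 hF0.le
  have b3 := psi_lt (k := k) hconv h1 h2 b1 b2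
  linarith

end Pool.TW.H85
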