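import Pool.Agent.Work.MP_46fa68_85.CBU
import Pool.Agent.Work.MP_46fa68_85.PairGap

/-!
# MP_46fa68_co: `m = 21`, `m = 22` from the two-class certificates of the packed tables (helper85)
-/

set_option autoImplicit false

open Finset Equiv

namespace Pool.EG

open Pool.TW Pool.TW.H82 Pool.TW.H85 Pool.EGL

theorem consts21 : ConstsT 21 (3 / 2) (29 / 20) := by
  refine ⟨by norm_num, by norm_num, by norm_num, ?_, ?_, ?_, ?_, ?_, ?_, ?_⟩ <;> norm_num

theorem consts20 : ConstsT 20 (3 / 2) (29 / 20) := by
  refine ⟨by norm_num, by norm_num, by norm_num, ?_, ?_, ?_, ?_, ?_, ?_, ?_⟩ <;> norm_num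

theorem gap_43 (H : TCs 41 21 21 148244 (-119758) 308869 899738 3777740 (-4297306))
    (hV : CrossU 21) : Gap 43 21 1 (3 / 44) (411 / 440) := by
  have hC := cb_of_crossU (t := 21) (by norm_num) hV (q := 9999 / 10000) (by norm_num) (by norm_num)
  have g1 : Gap 43 21 1 (3 / 44) (3 / 5) := by
    refine gap_of_TCs (n := 41) (k := 21) (t := 21) (l := 3127 / 1000) (by norm_num) (by norm_num)
      (by norm_num) (by norm_num) (by norm_num) (by norm_num) (by norm_num) H hC (by norm_num)
      (by norm_num) (by norm_num) ?_ ?_ ?_ ?_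
    all_goals norm_num [psi, Nat.factorial]
  have g2 : Gap 43 21 1 (29 / 50) (411 / 440) := by
    refine gap_of_TCs (n := 41) (k := 21) (t := 21) (l := 93 / 500) (by norm_num) (by norm_num)
      (by norm_num) (by norm_num) (by norm_num) (by norm_num) (by norm_num) H hC (by norm_num)
      (by norm_num) (by norm_num) ?_ ?_ ?_ ?_
    all_goals norm_num [psi, Nat.factorial]
  exact gap_union g1 g2 (by norm_num)

theorem gap_41 (H : TCs 39 20 20 142882 (-119443) 301287 855176 3542235 (-4176460))
    (hV : CrossU 20) : Gap 41 20 1 (1 / 14) (391 / 420) := by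
  have hC := cb_of_crossU (t := 20) (by norm_num) hV (q := 9999 / 10000) (by norm_num) (by norm_num)
  have g1 : Gap 41 20 1 (1 / 14) (57 / 100) := by
    refine gap_of_TCs (n := 39) (k := 20) (t := 20) (l := 83 / 25) (by norm_num) (by norm_num)
      (by norm_num) (by norm_num) (by norm_num) (by norm_num) (by norm_num) H hC (by norm_num)
      (by norm_num) (by norm_num) ?_ ?_ ?_ ?_
    all_goals norm_num [psi, Nat.factorial]
  have g2 : Gap 41 20 1 (11 / 20) (391 / 420) := by
    refine gap_of_TCs (n := 39) (k := 20) (t := 20) (l := 51 / 250) (by norm_num) (by norm_num)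
      (by norm_num) (by norm_num) (by norm_num) (by norm_num) (by norm_num) H hC (by norm_num)
      (by norm_num) (by norm_num) ?_ ?_ ?_ ?_
    all_goals norm_num [psi, Nat.factorial]
  exact gap_union g1 g2 (by norm_num)

/-- `m = 22` -/
theorem holds_43_of (H : TCs 41 21 21 148244 (-119758) 308869 899738 3777740 (-4297306))
    (hV : CrossU 21) (hK : ∀ n' t' : ℕ, 2 * t' + 3 ≤ n' → Holds n' t') : Holds 43 21 := by
  refine holds_constsT (t := 21) consts21 ?_ (link_all 21 (by norm_num)) hK
  refine Gap.mono (gap_43 H hV) ?_ ?_ ?_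
  all_goals norm_num

/-- `m = 21` -/
theorem holds_41_of (H : TCs 39 20 20 142882 (-119443) 301287 855176 3542235 (-4176460))
    (hV : CrossU 20) (hK : ∀ n' t' : ℕ, 2 * t' + 3 ≤ n' → Holds n' t') : Holds 41 20 := by
  refine holds_constsT (t := 20) consts20 ?_ (link_all 20 (by norm_num)) hK
  refine Gap.mono (gap_41 H hV) ?_ ?_ ?_
  all_goals norm_num

end Pool.EG
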