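import Mathlib

/-!
# MP_46fa68_co: from a 3-point (or pointed 2-point) certificate to Q1 for one pair `(n, t)`

`Cert3 n t K`: a kernel `K` on the ball `{g : g has at least t fixed points}`.
`Cert3.holds`: a certificate gives the bound `(n - t)!` and uniqueness of the stars.
`Cert3.of_pointed`: the pointed form (no base changes).
-/

set_option autoImplicit false

open Finset Equiv

namespace Pool.JM.P3

/-- Q1 for one pair `(n, t)` (the same as in `DiagonalReduction`). -/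
def Holds (n t : ℕ) : Prop :=
  ∀ A : Finset (Equiv.Perm (Fin n)),
    (∀ σ ∈ A, ∀ τ ∈ A, t ≤ (univ.filter (fun i : Fin n => σ i = τ i)).card) →
    A.card ≤ (n - t).factorial ∧
      (A.card = (n - t).factorial →
        ∃ a b : Fin t → Fin n, Function.Injective a ∧ Function.Injective b ∧
          A = univ.filter (fun σ : Equiv.Perm (Fin n) => ∀ k : Fin t, σ (a k) = b k))

/-- number of agreements -/
def agr {n : ℕ} (σ τ : Perm (Fin n)) : ℕ := (univ.filter (fun i : Fin n => σ i = τ i)).card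

lemma agr_comm {n : ℕ} (σ τ : Perm (Fin n)) : agr σ τ = agr τ σ := by
  unfold agr
  congr 1
  ext i
  simp [eq_comm]

lemma agr_mul_left {n : ℕ} (g σ τ : Perm (Fin n)) : agr (g * σ) (g * τ) = agr σ τ := by
  unfold agr
  congr 1
  ext i
  simp [Perm.mul_apply]

/-- the quadratic form of a kernel -/
noncomputable def Q {n : ℕ} (K : Perm (Fin n) → Perm (Fin n) → ℝ) (f : Perm (Fin n) → ℝ) : ℝ :=
  ∑ g, ∑ h, K g h * f g * f h

/-- A 3-point certificate for `(n, t)`. -/
structure Cert3 (n t : ℕ) (K : Perm (Fin n) → Perm (Fin n) → ℝ) : Prop where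
  one : K 1 1 ≤ ((n - t).factorial : ℝ) - 1
  pair : ∀ g, g ≠ 1 → t ≤ agr 1 g → K 1 g + K g 1 + K g⁻¹ g⁻¹ ≤ -1
  triple : ∀ g h, g ≠ 1 → h ≠ 1 → g ≠ h → t ≤ agr 1 g → t ≤ agr 1 h → t ≤ agr g h →
    K g h + K (g⁻¹ * h) g⁻¹ + K h⁻¹ (h⁻¹ * g) ≤ 0
  psd : ∀ f : Perm (Fin n) → ℝ, (∀ g, f g ≠ 0 → t ≤ agr 1 g) → 0 ≤ Q K f
  null : ∀ f : Perm (Fin n) → ℝ, (∀ g, f g ≠ 0 → t ≤ agr 1 g) → Q K f = 0 →
    ∃ φ : Finset (Fin n) → ℝ, ∀ g, f g =
      ∑ M ∈ (powersetCard (n - t) univ).filter (fun M => ∀ i, i ∉ M → g i = i), φ M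

/-- The pointed form: no base changes are needed if `K ≤ 0` on all agreeing pairs. -/
theorem Cert3.of_pointed {n t : ℕ} {K : Perm (Fin n) → Perm (Fin n) → ℝ}
    (one : K 1 1 ≤ ((n - t).factorial : ℝ) - 1)
    (left : ∀ g, g ≠ 1 → t ≤ agr 1 g → K 1 g = -1)
    (right : ∀ g, g ≠ 1 → t ≤ agr 1 g → K g 1 = -1)
    (diag : ∀ g, g ≠ 1 → t ≤ agr 1 g → K g g ≤ 1)
    (nonpos : ∀ g h, g ≠ 1 → h ≠ 1 → g ≠ h → t ≤ agr 1 g → t ≤ agr 1 h → t ≤ agr g h → K g h ≤ 0)
    (psd : ∀ f : Perm (Fin n) → ℝ, (∀ g, f g ≠ 0 → t ≤ agr 1 g) → 0 ≤ Q K f)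
    (null : ∀ f : Perm (Fin n) → ℝ, (∀ g, f g ≠ 0 → t ≤ agr 1 g) → Q K f = 0 →
      ∃ φ : Finset (Fin n) → ℝ, ∀ g, f g =
        ∑ M ∈ (powersetCard (n - t) univ).filter (fun M => ∀ i, i ∉ M → g i = i), φ M) :
    Cert3 n t K := by
  have hinv : ∀ g : Perm (Fin n), agr 1 g⁻¹ = agr 1 g := fun g => by
    rw [← agr_mul_left g 1 g⁻¹, mul_one, mul_inv_cancel, agr_comm]
  refine ⟨one, fun g hg h1 => ?_, fun g h hg hh hgh h1 h2 h3 => ?_, psd, null⟩
  · have hg' : g⁻¹ ≠ 1 := fun h => hg (inv_eq_one.1 h)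
    linarith [left g hg h1, right g hg h1, diag g⁻¹ hg' (by rwa [hinv])]
  · have a1 := nonpos g h hg hh hgh h1 h2 h3
    have a2 := nonpos (g⁻¹ * h) g⁻¹ (fun e => hgh (inv_mul_eq_one.1 e))
      (fun e => hg (inv_eq_one.1 e)) (fun e => hh (by simpa using e))
      (by rw [← agr_mul_left g, mul_one, mul_inv_cancel_left]; exact h3)
      (by rwa [hinv])
      (by rw [← agr_mul_left g, mul_inv_cancel_left, mul_inv_cancel, agr_comm]; exact h2)
    have a3 := nonpos h⁻¹ (h⁻¹ * g) (fun e => hh (inv_eq_one.1 e))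
      (fun e => hgh (inv_mul_eq_one.1 e).symm) (fun e => hg (by simpa using e.symm))
      (by rwa [hinv])
      (by rw [← agr_mul_left h, mul_one, mul_inv_cancel_left, agr_comm]; exact h3)
      (by rw [← agr_mul_left h, mul_inv_cancel_left, mul_inv_cancel]; exact h1)
    linarith

section

variable {n t : ℕ} {K : Perm (Fin n) → Perm (Fin n) → ℝ} (hK : Cert3 n t K)
  {A : Finset (Perm (Fin n))} (hA : ∀ σ ∈ A, ∀ τ ∈ A, t ≤ agr σ τ)

include hK hA

lemma pointwise {s a b : Perm (Fin n)} (hs : s ∈ A) (ha : a ∈ A) (hb : b ∈ A) :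
    K (s⁻¹ * a) (s⁻¹ * b) + K (a⁻¹ * b) (a⁻¹ * s) + K (b⁻¹ * s) (b⁻¹ * a) ≤
      3 * ((n - t).factorial : ℝ) * (if s = a ∧ a = b then 1 else 0) -
        (if s = a then 1 else 0) - (if a = b then 1 else 0) - (if b = s then 1 else 0) := by
  have hagr : ∀ x ∈ A, ∀ y ∈ A, t ≤ agr 1 (x⁻¹ * y) := fun x hx y hy => by
    rw [← agr_mul_left x, mul_one, mul_inv_cancel_left]
    exact hA x hx y hy
  by_cases h1 : s = a
  · subst h1
    by_cases h2 : s = b
    · subst h2
      simp only [inv_mul_cancel, and_self, if_true]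
      linarith [hK.one]
    · have h3 : b ≠ s := fun h => h2 h.symm
      have hp := hK.pair (s⁻¹ * b) (fun e => h2 (inv_mul_eq_one.1 e)) (hagr s hs b hb)
      rw [mul_inv_rev, inv_inv] at hp
      simp only [inv_mul_cancel, h2, h3, and_false, if_true, if_false]
      linarith
  · by_cases h2 : a = b
    · subst h2
      have h3 : a ≠ s := fun h => h1 h.symm
      have hp := hK.pair (a⁻¹ * s) (fun e => h3 (inv_mul_eq_one.1 e)) (hagr a ha s hs)
      rw [mul_inv_rev, inv_inv] at hp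
      simp only [inv_mul_cancel, h1, h3, false_and, if_true, if_false]
      linarith
    · by_cases h3 : b = s
      · subst h3
        have hp := hK.pair (b⁻¹ * a) (fun e => h1 (inv_mul_eq_one.1 e)) (hagr b hb a ha)
        rw [mul_inv_rev, inv_inv] at hp
        simp only [inv_mul_cancel, h1, h2, false_and, if_true, if_false]
        linarith
      · have ht := hK.triple (s⁻¹ * a) (s⁻¹ * b) (fun e => h1 (inv_mul_eq_one.1 e))
          (fun e => h3 (inv_mul_eq_one.1 e).symm) (fun e => h2 (mul_left_cancel e))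
          (hagr s hs a ha) (hagr s hs b hb) (by rw [agr_mul_left]; exact hA a ha b hb)
        have e1 : (s⁻¹ * a)⁻¹ * (s⁻¹ * b) = a⁻¹ * b := by group
        have e2 : (s⁻¹ * a)⁻¹ = a⁻¹ * s := by group
        have e3 : (s⁻¹ * b)⁻¹ = b⁻¹ * s := by group
        have e4 : (s⁻¹ * b)⁻¹ * (s⁻¹ * a) = b⁻¹ * a := by group
        rw [e1, e4, e2, e3] at ht
        simp only [h1, h2, h3, false_and, if_false]
        linarith

lemma total : ∑ s ∈ A, ∑ a ∈ A, ∑ b ∈ A, K (s⁻¹ * a) (s⁻¹ * b) ≤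
    (A.card : ℝ) * ((n - t).factorial : ℝ) - (A.card : ℝ) * A.card := by
  classical
  set G : Perm (Fin n) → Perm (Fin n) → Perm (Fin n) → ℝ := fun s a b => K (s⁻¹ * a) (s⁻¹ * b)
    with hG
  have e1 : ∑ s ∈ A, ∑ a ∈ A, ∑ b ∈ A, G a b s = ∑ s ∈ A, ∑ a ∈ A, ∑ b ∈ A, G s a b := by
    rw [sum_comm]
    refine sum_congr rfl fun a _ => ?_
    rw [sum_comm]
  have e2 : ∑ s ∈ A, ∑ a ∈ A, ∑ b ∈ A, G b s a = ∑ s ∈ A, ∑ a ∈ A, ∑ b ∈ A, G s a b := by
    calc ∑ s ∈ A, ∑ a ∈ A, ∑ b ∈ A, G b s a = ∑ s ∈ A, ∑ b ∈ A, ∑ a ∈ A, G b s a :=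
          sum_congr rfl fun s _ => sum_comm
      _ = ∑ b ∈ A, ∑ s ∈ A, ∑ a ∈ A, G b s a := sum_comm
  have h3 : ∑ s ∈ A, ∑ a ∈ A, ∑ b ∈ A, (G s a b + G a b s + G b s a) =
      3 * ∑ s ∈ A, ∑ a ∈ A, ∑ b ∈ A, G s a b := by
    simp only [sum_add_distrib]
    rw [e1, e2]
    ring
  have h4 : ∑ s ∈ A, ∑ a ∈ A, ∑ b ∈ A, (G s a b + G a b s + G b s a) ≤
      ∑ s ∈ A, ∑ a ∈ A, ∑ b ∈ A, (3 * ((n - t).factorial : ℝ) * (if s = a ∧ a = b then 1 else 0) -
        (if s = a then 1 else 0) - (if a = b then 1 else 0) - (if b = s then 1 else 0)) :=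
    sum_le_sum fun s hs => sum_le_sum fun a ha => sum_le_sum fun b hb =>
      pointwise hK hA hs ha hb
  have c1 : ∑ s ∈ A, ∑ a ∈ A, ∑ b ∈ A, (if s = a ∧ a = b then (1 : ℝ) else 0) = A.card := by
    have : ∀ s ∈ A, ∑ a ∈ A, ∑ b ∈ A, (if s = a ∧ a = b then (1 : ℝ) else 0) = 1 := by
      intro s hs
      rw [sum_eq_single_of_mem s hs, sum_eq_single_of_mem s hs]
      · simp
      · intro b _ hb
        rw [if_neg]
        exact fun h => hb h.2.symm
      · intro a _ ha
        refine sum_eq_zero fun b _ => ?_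
        rw [if_neg]
        exact fun h => ha h.1.symm
    rw [sum_congr rfl this, sum_const, nsmul_eq_mul, mul_one]
  have c2 : ∑ s ∈ A, ∑ a ∈ A, ∑ _b ∈ A, (if s = a then (1 : ℝ) else 0) = (A.card : ℝ) * A.card := by
    have : ∀ s ∈ A, ∑ a ∈ A, ∑ _b ∈ A, (if s = a then (1 : ℝ) else 0) = A.card := by
      intro s hs
      rw [sum_eq_single_of_mem s hs]
      · simp
      · intro a _ ha
        simp [ha.symm]
    rw [sum_congr rfl this, sum_const, nsmul_eq_mul]
  have c3 : ∑ _s ∈ A, ∑ a ∈ A, ∑ b ∈ A, (if a = b then (1 : ℝ) else 0) = (A.card : ℝ) * A.card := by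
    have : ∀ a ∈ A, ∑ b ∈ A, (if a = b then (1 : ℝ) else 0) = 1 := by
      intro a ha
      rw [sum_eq_single_of_mem a ha]
      · simp
      · intro b _ hb
        simp [hb.symm]
    rw [sum_congr rfl fun s _ => sum_congr rfl this]
    simp
  have c4 : ∑ s ∈ A, ∑ _a ∈ A, ∑ b ∈ A, (if b = s then (1 : ℝ) else 0) = (A.card : ℝ) * A.card := by
    have : ∀ s ∈ A, ∑ b ∈ A, (if b = s then (1 : ℝ) else 0) = 1 := by
      intro s hs
      rw [sum_eq_single_of_mem s hs]
      · simp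
      · intro b _ hb
        simp [hb]
    rw [sum_congr rfl fun s hs => sum_congr rfl fun a _ => this s hs]
    simp
  have h5 : ∑ s ∈ A, ∑ a ∈ A, ∑ b ∈ A,
      (3 * ((n - t).factorial : ℝ) * (if s = a ∧ a = b then 1 else 0) -
        (if s = a then 1 else 0) - (if a = b then 1 else 0) - (if b = s then 1 else 0)) =
      3 * ((n - t).factorial : ℝ) * A.card - (A.card : ℝ) * A.card - (A.card : ℝ) * A.card -
        (A.card : ℝ) * A.card := by
    simp only [sum_sub_distrib, ← mul_sum]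
    rw [c1, c2, c3, c4]
  rw [h3, h5] at h4
  show ∑ s ∈ A, ∑ a ∈ A, ∑ b ∈ A, G s a b ≤ _
  linarith

lemma supp_f {s : Perm (Fin n)} (hs : s ∈ A) (g : Perm (Fin n))
    (h : (if s * g ∈ A then (1 : ℝ) else 0) ≠ 0) : t ≤ agr 1 g := by
  have h1 : s * g ∈ A := by
    by_contra hc
    rw [if_neg hc] at h
    exact h rfl
  rw [← agr_mul_left s, mul_one]
  exact hA s hs _ h1

end

lemma Q_indicator {n : ℕ} (K : Perm (Fin n) → Perm (Fin n) → ℝ) (A : Finset (Perm (Fin n)))
    (s : Perm (Fin n)) : Q K (fun g => if s * g ∈ A then (1 : ℝ) else 0) =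
      ∑ a ∈ A, ∑ b ∈ A, K (s⁻¹ * a) (s⁻¹ * b) := by
  classical
  unfold Q
  have h : ∀ F : Perm (Fin n) → ℝ, ∑ g, F g * (if s * g ∈ A then (1 : ℝ) else 0) =
      ∑ a ∈ A, F (s⁻¹ * a) := by
    intro F
    rw [← Equiv.sum_comp (Equiv.mulLeft s⁻¹) (fun g => F g * (if s * g ∈ A then (1 : ℝ) else 0))]
    simp only [Equiv.coe_mulLeft, mul_inv_cancel_left, mul_ite, mul_one, mul_zero]
    rw [← sum_filter, filter_mem_eq_inter, univ_inter]
  calc ∑ g, ∑ h, K g h * (if s * g ∈ A then (1 : ℝ) else 0) * (if s * h ∈ A then (1 : ℝ) else 0)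
      = ∑ g, (∑ b ∈ A, K g (s⁻¹ * b)) * (if s * g ∈ A then (1 : ℝ) else 0) := by
        refine sum_congr rfl fun g _ => ?_
        rw [h (fun x => K g x * (if s * g ∈ A then (1 : ℝ) else 0)), ← sum_mul]
    _ = _ := h (fun g => ∑ b ∈ A, K g (s⁻¹ * b))

/-- **A certificate gives Q1 for `(n, t)`.** -/
theorem Cert3.holds {n t : ℕ} {K : Perm (Fin n) → Perm (Fin n) → ℝ} (hK : Cert3 n t K)
    (htn : t + 2 ≤ n) : Holds n t := by
  classical
  intro A hA
  have hA' : ∀ σ ∈ A, ∀ τ ∈ A, t ≤ agr σ τ := hA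
  have hQ : ∀ s ∈ A, 0 ≤ Q K (fun g => if s * g ∈ A then (1 : ℝ) else 0) := fun s hs =>
    hK.psd _ fun g hg => supp_f hK hA' hs g hg
  have htot := total hK hA'
  have hsum : ∑ s ∈ A, Q K (fun g => if s * g ∈ A then (1 : ℝ) else 0) ≤
      (A.card : ℝ) * ((n - t).factorial : ℝ) - (A.card : ℝ) * A.card := by
    rw [sum_congr rfl fun s _ => Q_indicator K A s]
    exact htot
  have hpos := sum_nonneg hQ
  rcases A.eq_empty_or_nonempty with rfl | ⟨s, hs⟩
  · refine ⟨by simp, fun h => ?_⟩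
    exact absurd h.symm (Nat.factorial_ne_zero _)
  have hc : (0 : ℝ) < A.card := by exact_mod_cast card_pos.2 ⟨s, hs⟩
  have hle : (A.card : ℝ) ≤ (n - t).factorial := by
    have : (0 : ℝ) ≤ (A.card : ℝ) * (((n - t).factorial : ℝ) - A.card) := by nlinarith
    have := (mul_nonneg_iff_of_pos_left hc).1 this
    linarith
  refine ⟨by exact_mod_cast hle, fun heq => ?_⟩
  have h0 : Q K (fun g => if s * g ∈ A then (1 : ℝ) else 0) = 0 := by
    have e : (A.card : ℝ) * ((n - t).factorial : ℝ) - (A.card : ℝ) * A.card = 0 := by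
      rw [← heq]; ring
    have h2 := single_le_sum (f := fun s => Q K (fun g => if s * g ∈ A then (1 : ℝ) else 0))
      (fun x hx => hQ x hx) hs
    have h3 := hQ s hs
    linarith
  obtain ⟨φ, hφ⟩ := hK.null _ (fun g hg => supp_f hK hA' hs g hg) h0
  -- `φ M` is `0` or `1`
  have h01 : ∀ M ∈ powersetCard (n - t) (univ : Finset (Fin n)), φ M = 0 ∨ φ M = 1 := by
    intro M hM
    have hMc : M.card = n - t := (mem_powersetCard.1 hM).2
    obtain ⟨c, hcM⟩ : ∃ c : Perm (Fin n), c.support = M := by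
      refine ⟨M.toList.formPerm, ?_⟩
      rw [List.support_formPerm_of_nodup _ M.nodup_toList, Finset.toList_toFinset]
      intro x hx
      have := congrArg List.length hx
      rw [Finset.length_toList, hMc] at this
      simp at this
      omega
    have h1 := hφ c
    have h2 : (powersetCard (n - t) (univ : Finset (Fin n))).filter
        (fun M' => ∀ i, i ∉ M' → c i = i) = {M} := by
      ext M'
      rw [mem_filter, mem_singleton]
      constructor
      · rintro ⟨h3, h4⟩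
        have h5 : M ⊆ M' := by
          intro i hi
          by_contra hc
          rw [← hcM, Perm.mem_support] at hi
          exact hi (h4 i hc)
        exact (eq_of_subset_of_card_le h5 (by rw [hMc, (mem_powersetCard.1 h3).2])).symm
      · rintro rfl
        refine ⟨hM, fun i hi => ?_⟩
        rw [← hcM, Perm.mem_support, not_not] at hi
        exact hi
    rw [h2, sum_singleton] at h1
    rw [← h1]
    by_cases h3 : s * c ∈ A <;> simp [h3]
  -- their sum is `1`
  have hsum1 : ∑ M ∈ powersetCard (n - t) (univ : Finset (Fin n)), φ M = 1 := by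
    have h1 := hφ 1
    rw [mul_one, if_pos hs] at h1
    rw [h1]
    refine sum_congr ?_ fun _ _ => rfl
    rw [filter_true_of_mem]
    exact fun M _ i _ => rfl
  obtain ⟨M, hM, hM1⟩ : ∃ M ∈ powersetCard (n - t) (univ : Finset (Fin n)), φ M = 1 := by
    by_contra hcon
    push Not at hcon
    have : ∑ M ∈ powersetCard (n - t) (univ : Finset (Fin n)), φ M = 0 :=
      sum_eq_zero fun M hM => (h01 M hM).resolve_right (hcon M hM)
    rw [this] at hsum1
    exact zero_ne_one hsum1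
  have hrest : ∀ M' ∈ powersetCard (n - t) (univ : Finset (Fin n)), M' ≠ M → φ M' = 0 := by
    intro M' hM' hne
    rcases h01 M' hM' with h | h
    · exact h
    · exfalso
      have h1 : φ M + φ M' ≤ ∑ M ∈ powersetCard (n - t) (univ : Finset (Fin n)), φ M := by
        rw [← sum_pair hne.symm]
        refine sum_le_sum_of_subset_of_nonneg ?_ fun i hi _ => ?_
        · intro x hx
          rw [mem_insert, mem_singleton] at hx
          rcases hx with rfl | rfl
          · exact hM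
          · exact hM'
        · rcases h01 i hi with h | h <;> rw [h] <;> norm_num
      rw [hM1, h, hsum1] at h1
      norm_num at h1
  have hmem : ∀ g, s * g ∈ A ↔ ∀ i, i ∉ M → g i = i := by
    intro g
    have h1 := hφ g
    by_cases h2 : ∀ i, i ∉ M → g i = i
    · have h3 : ∑ M' ∈ (powersetCard (n - t) (univ : Finset (Fin n))).filter
          (fun M' => ∀ i, i ∉ M' → g i = i), φ M' = φ M := by
        refine sum_eq_single_of_mem M (mem_filter.2 ⟨hM, h2⟩) fun M' hM' hne => ?_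
        exact hrest M' (mem_filter.1 hM').1 hne
      rw [h3, hM1] at h1
      refine ⟨fun _ => h2, fun _ => ?_⟩
      by_contra hc
      rw [if_neg hc] at h1
      exact zero_ne_one h1
    · have h3 : ∑ M' ∈ (powersetCard (n - t) (univ : Finset (Fin n))).filter
          (fun M' => ∀ i, i ∉ M' → g i = i), φ M' = 0 := by
        refine sum_eq_zero fun M' hM' => ?_
        rw [mem_filter] at hM'
        refine hrest M' hM'.1 ?_
        rintro rfl
        exact h2 hM'.2
      rw [h3] at h1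
      refine ⟨fun hc => ?_, fun hc => absurd hc h2⟩
      rw [if_pos hc] at h1
      exact absurd h1 one_ne_zero
  have hMc : (univ \ M).card = t := by
    rw [card_univ_sdiff, Fintype.card_fin, (mem_powersetCard.1 hM).2]
    omega
  refine ⟨fun k => (univ \ M).orderEmbOfFin hMc k, fun k => s ((univ \ M).orderEmbOfFin hMc k),
    fun i j hij => ((univ \ M).orderEmbOfFin hMc).injective hij,
    fun i j hij => ((univ \ M).orderEmbOfFin hMc).injective (s.injective hij), ?_⟩
  ext σ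
  rw [mem_filter]
  have h1 := hmem (s⁻¹ * σ)
  rw [mul_inv_cancel_left] at h1
  rw [h1]
  constructor
  · intro h
    refine ⟨mem_univ _, fun k => ?_⟩
    have h2 := (univ \ M).orderEmbOfFin_mem hMc k
    have h3 := h _ (mem_sdiff.1 h2).2
    rw [Perm.mul_apply] at h3
    exact (Perm.inv_eq_iff_eq.1 h3)
  · rintro ⟨_, h⟩ i hi
    have h2 : i ∈ Set.range ((univ \ M).orderEmbOfFin hMc) := by
      rw [Finset.range_orderEmbOfFin]
      exact_mod_cast (mem_sdiff.2 ⟨mem_univ _, hi⟩ : i ∈ univ \ M)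
    obtain ⟨k, rfl⟩ := h2
    rw [Perm.mul_apply, h k]
    exact Equiv.symm_apply_apply _ _

end Pool.JM.P3
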